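import Mathlib

/-!
# MP_52e642_an: the weak Shanks conjecture on the bidisk is false

The polynomial `f = (5 - z₁ + 3 z₂)³ (5 + 3 z₁ - z₂)³` has no zeros on the closed bidisk (there
`|z₁ - 3 z₂| ≤ 4` and `|3 z₁ - z₂| ≤ 4`), but its optimal polynomial approximant of index `2` in
`H²(𝔻²)` (that is, in the span of `1, z₁, z₂`) is a multiple of `632882141 - 320739720 (z₁ + z₂)`,
which vanishes at the point `z₁ = z₂ = 632882141 / 641479440 < 1`.
-/

set_option autoImplicit false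

open MvPolynomial Finset

namespace Pool.Agent.Results.MP_52e642_an.WeakShanksFails

/-! ### Definitions -/

/-- The exponents `(j, k)` of the monomials `z₁^j z₂^k` in the degree-lexicographic order:
`(0,0), (1,0), (0,1), (2,0), (1,1), (0,2), (3,0), …`. -/
def degLex : ℕ → ℕ × ℕ
  | 0 => (0, 0)
  | n + 1 =>
    if (degLex n).1 = 0 then ((degLex n).2 + 1, 0) else ((degLex n).1 - 1, (degLex n).2 + 1)

/-- The span `𝒫_n` of the first `n + 1` monomials in the degree-lexicographic order. -/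
noncomputable def P (n : ℕ) : Submodule ℂ (MvPolynomial (Fin 2) ℂ) :=
  Submodule.span ℂ {m | ∃ i ≤ n, m = X 0 ^ (degLex i).1 * X 1 ^ (degLex i).2}

/-- The norm of the Hardy space `H²(𝔻²)` of the bidisk, on polynomials: the square root of the sum
of the squares of the absolute values of the coefficients. -/
noncomputable def hardyNorm (g : MvPolynomial (Fin 2) ℂ) : ℝ :=
  √(∑ d ∈ g.support, ‖g.coeff d‖ ^ 2)

/-- `q` is the `n`-th optimal polynomial approximant of `1/f` in `H²(𝔻²)`: it minimises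
`‖p f - 1‖` over all `p` in `𝒫_n`. -/
def IsOptimalApproximant (f : MvPolynomial (Fin 2) ℂ) (n : ℕ) (q : MvPolynomial (Fin 2) ℂ) :
    Prop :=
  q ∈ P n ∧ ∀ p ∈ P n, hardyNorm (q * f - 1) ≤ hardyNorm (p * f - 1)

/-! ### Sanity checks -/

example : (List.range 10).map degLex =
    [(0, 0), (1, 0), (0, 1), (2, 0), (1, 1), (0, 2), (3, 0), (2, 1), (1, 2), (0, 3)] := by decide

/-! ### Polynomials given by tables -/

/-- exponent -/
noncomputable def ex (i j : ℕ) : Fin 2 →₀ ℕ := Finsupp.single 0 i + Finsupp.single 1 j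

lemma ex_zero (i j : ℕ) : ex i j 0 = i := by simp [ex]

lemma ex_one (i j : ℕ) : ex i j 1 = j := by simp [ex]

lemma ex_inj {i j k l : ℕ} (h : ex i j = ex k l) : i = k ∧ j = l := by
  constructor
  · have := congrArg (fun d => d 0) h
    simpa [ex_zero] using this
  · have := congrArg (fun d => d 1) h
    simpa [ex_one] using this

lemma ex_self (d : Fin 2 →₀ ℕ) : ex (d 0) (d 1) = d := by
  ext i
  fin_cases i
  · exact ex_zero _ _
  · exact ex_one _ _

/-- the polynomial with coefficients `c i j`, `i, j < N` -/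
noncomputable def poly (N : ℕ) (c : ℕ → ℕ → ℂ) : MvPolynomial (Fin 2) ℂ :=
  ∑ i ∈ range N, ∑ j ∈ range N, monomial (ex i j) (c i j)

lemma coeff_poly (N : ℕ) (c : ℕ → ℕ → ℂ) (k l : ℕ) :
    (poly N c).coeff (ex k l) = if k < N ∧ l < N then c k l else 0 := by
  classical
  simp only [poly, coeff_sum, coeff_monomial]
  by_cases hk : k < N
  · rw [Finset.sum_eq_single k]
    · by_cases hl : l < N
      · rw [Finset.sum_eq_single l]
        · simp [hk, hl]
        · intro j _ hj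
          rw [if_neg]
          intro h
          exact hj (ex_inj h).2
        · intro h
          exact absurd (mem_range.2 hl) h
      · rw [if_neg (fun h => hl h.2)]
        apply Finset.sum_eq_zero
        intro j hj
        rw [if_neg]
        intro h
        have := (ex_inj h).2
        have h2 := mem_range.1 hj
        omega
    · intro i _ hi
      apply Finset.sum_eq_zero
      intro j _
      rw [if_neg]
      intro h
      exact hi (ex_inj h).1
    · intro h
      exact absurd (mem_range.2 hk) h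
  · rw [if_neg (fun h => hk h.1)]
    apply Finset.sum_eq_zero
    intro i hi
    apply Finset.sum_eq_zero
    intro j _
    rw [if_neg]
    intro h
    have := (ex_inj h).1
    have h2 := mem_range.1 hi
    omega

lemma hardy_poly (N : ℕ) (c : ℕ → ℕ → ℂ) :
    ∑ d ∈ (poly N c).support, ‖(poly N c).coeff d‖ ^ 2 =
      ∑ i ∈ range N, ∑ j ∈ range N, ‖c i j‖ ^ 2 := by
  classical
  let box : Finset (Fin 2 →₀ ℕ) := (range N ×ˢ range N).image (fun p => ex p.1 p.2)
  have hsub : (poly N c).support ⊆ box := by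
    intro d hd
    rw [mem_support_iff, ← ex_self d, coeff_poly] at hd
    have h : d 0 < N ∧ d 1 < N := by
      by_contra h
      exact hd (if_neg h)
    rw [mem_image]
    exact ⟨(d 0, d 1), by simp [h.1, h.2], ex_self d⟩
  rw [Finset.sum_subset hsub, Finset.sum_image, Finset.sum_product]
  · apply Finset.sum_congr rfl
    intro i hi
    apply Finset.sum_congr rfl
    intro j hj
    simp only
    rw [coeff_poly, if_pos ⟨mem_range.1 hi, mem_range.1 hj⟩]
  · rintro ⟨i, j⟩ _ ⟨k, l⟩ _ h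
    obtain ⟨h1, h2⟩ := ex_inj h
    simp at h1 h2
    rw [h1, h2]
  · intro d _ hd
    rw [notMem_support_iff.1 hd]
    simp

/-! ### The counterexample -/

/-- the coefficients of `f` -/
def T : List (List ℤ) :=
  [[15625, 18750, 1875, -3500, -225, 270, -27],
   [18750, 33750, 13500, -3300, -1530, 270, 0],
   [1875, 13500, 13050, 1740, -981, 0, 0],
   [-3500, -3300, 1740, 1540, 0, 0, 0],
   [-225, -1530, -981, 0, 0, 0, 0],
   [270, 270, 0, 0, 0, 0, 0],
   [-27, 0, 0, 0, 0, 0, 0]]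

/-- the coefficients of `f` -/
def U0 (i j : ℕ) : ℤ := (T.getD i []).getD j 0

/-- the coefficients of `z₁ f` -/
def U1 (i j : ℕ) : ℤ := if i = 0 then 0 else U0 (i - 1) j

/-- the coefficients of `z₂ f` -/
def U2 (i j : ℕ) : ℤ := if j = 0 then 0 else U0 i (j - 1)

/-- the coefficients of `1` -/
def U3 (i j : ℕ) : ℤ := if i = 0 ∧ j = 0 then 1 else 0

/-- the polynomial `f = (5 - z₁ + 3 z₂)³ (5 + 3 z₁ - z₂)³` -/
noncomputable def F : MvPolynomial (Fin 2) ℂ :=
  (C 5 - X 0 + C 3 * X 1) ^ 3 * (C 5 + C 3 * X 0 - X 1) ^ 3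

lemma monomial_ex (i j : ℕ) (c : ℂ) :
    (monomial (ex i j) c : MvPolynomial (Fin 2) ℂ) = C c * (X 0 ^ i * X 1 ^ j) := by
  rw [X_pow_eq_monomial, X_pow_eq_monomial, monomial_mul, C_mul_monomial, ex]
  simp

/-- the coefficients of `(a + b z₁ + c z₂) f - 1` -/
noncomputable def W (a b c : ℂ) (i j : ℕ) : ℂ :=
  a * (U0 i j : ℂ) + b * (U1 i j : ℂ) + c * (U2 i j : ℂ) - (U3 i j : ℂ)

lemma residual_eq (a b c : ℂ) :
    (C a + C b * X 0 + C c * X 1) * F - 1 = poly 8 (W a b c) := by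
  simp only [F, poly, monomial_ex, sum_range_succ, sum_range_zero, W, U3, U2, U1, U0, T,
    List.getD_cons_zero, List.getD_cons_succ, List.getD_nil]
  norm_num
  simp only [map_zero, map_ofNat]
  ring

lemma mem_P_two {p : MvPolynomial (Fin 2) ℂ} :
    p ∈ P 2 ↔ ∃ a b c : ℂ, p = C a + C b * X 0 + C c * X 1 := by
  have h : {m : MvPolynomial (Fin 2) ℂ | ∃ i ≤ 2, m = X 0 ^ (degLex i).1 * X 1 ^ (degLex i).2} =
      {1, X 0, X 1} := by
    ext m
    constructor
    · rintro ⟨i, hi, rfl⟩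
      interval_cases i <;> simp [degLex]
    · rintro (rfl | rfl | rfl)
      · exact ⟨0, by norm_num, by simp [degLex]⟩
      · exact ⟨1, by norm_num, by simp [degLex]⟩
      · exact ⟨2, by norm_num, by simp [degLex]⟩
  rw [P, h, Submodule.mem_span_triple]
  constructor
  · rintro ⟨a, b, c, rfl⟩
    exact ⟨a, b, c, by simp [MvPolynomial.smul_eq_C_mul]⟩
  · rintro ⟨a, b, c, rfl⟩
    exact ⟨a, b, c, by simp [MvPolynomial.smul_eq_C_mul]⟩

/-! ### The least squares problem -/

/-- the coefficients of `q f - 1` with `q = (q₀ + q₁ (z₁ + z₂))`, times the common denominator -/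
def W0 (i j : ℕ) : ℤ :=
  1977756690625 * U0 i j - 1002311625000 * (U1 i j + U2 i j) - 134726138295645241 * U3 i j

lemma orth0 : ∑ i ∈ range 8, ∑ j ∈ range 8, W0 i j * U0 i j = 0 := by decide +kernel

lemma orth1 : ∑ i ∈ range 8, ∑ j ∈ range 8, W0 i j * U1 i j = 0 := by decide +kernel

lemma orth2 : ∑ i ∈ range 8, ∑ j ∈ range 8, W0 i j * U2 i j = 0 := by decide +kernel

/-- common denominator -/
def Dn : ℝ := 134726138295645241

/-- the constant coefficient of the optimal approximant -/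
noncomputable def q0 : ℂ := 1977756690625 / 134726138295645241

/-- the other coefficient of the optimal approximant -/
noncomputable def q1 : ℂ := -(1002311625000 / 134726138295645241)

lemma W_eq (x y z : ℂ) (i j : ℕ) : W (q0 + x) (q1 + y) (q1 + z) i j =
    ((((W0 i j : ℤ) : ℝ) / Dn : ℝ) : ℂ) +
      (x * (U0 i j : ℂ) + y * (U1 i j : ℂ) + z * (U2 i j : ℂ)) := by
  simp only [W, W0, Dn, q0, q1]
  push_cast
  ring

lemma norm_sq_add (w : ℝ) (v : ℂ) : ‖(w : ℂ) + v‖ ^ 2 = w ^ 2 + 2 * (w * v.re) + ‖v‖ ^ 2 := by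
  rw [← Complex.normSq_eq_norm_sq, ← Complex.normSq_eq_norm_sq, Complex.normSq_apply,
    Complex.normSq_apply]
  simp
  ring

lemma cross (x y z : ℂ) : ∑ i ∈ range 8, ∑ j ∈ range 8, ((((W0 i j : ℤ) : ℝ) / Dn) *
      (x * (U0 i j : ℂ) + y * (U1 i j : ℂ) + z * (U2 i j : ℂ)).re) = 0 := by
  have h : ∀ i j : ℕ, ((((W0 i j : ℤ) : ℝ) / Dn) *
      (x * (U0 i j : ℂ) + y * (U1 i j : ℂ) + z * (U2 i j : ℂ)).re) =
      x.re / Dn * ((W0 i j * U0 i j : ℤ) : ℝ) + y.re / Dn * ((W0 i j * U1 i j : ℤ) : ℝ) +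
        z.re / Dn * ((W0 i j * U2 i j : ℤ) : ℝ) := by
    intro i j
    simp
    ring
  simp only [h, Finset.sum_add_distrib, ← Finset.mul_sum]
  have h0 := orth0
  have h1 := orth1
  have h2 := orth2
  have g0 : ∑ i ∈ range 8, ∑ j ∈ range 8, ((W0 i j * U0 i j : ℤ) : ℝ) = 0 := by
    exact_mod_cast h0
  have g1 : ∑ i ∈ range 8, ∑ j ∈ range 8, ((W0 i j * U1 i j : ℤ) : ℝ) = 0 := by
    exact_mod_cast h1
  have g2 : ∑ i ∈ range 8, ∑ j ∈ range 8, ((W0 i j * U2 i j : ℤ) : ℝ) = 0 := by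
    exact_mod_cast h2
  rw [g0, g1, g2]
  simp

/-- the part of the error which depends on the deviation from the optimal approximant -/
noncomputable def E (x y z : ℂ) : ℝ := ∑ i ∈ range 8, ∑ j ∈ range 8,
  ‖x * (U0 i j : ℂ) + y * (U1 i j : ℂ) + z * (U2 i j : ℂ)‖ ^ 2

/-- the smallest value of the squared error -/
noncomputable def E0 : ℝ := ∑ i ∈ range 8, ∑ j ∈ range 8, (((W0 i j : ℤ) : ℝ) / Dn) ^ 2

lemma error_eq (x y z : ℂ) :
    ∑ i ∈ range 8, ∑ j ∈ range 8, ‖W (q0 + x) (q1 + y) (q1 + z) i j‖ ^ 2 = E0 + E x y z := by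
  have h := cross x y z
  simp only [W_eq, norm_sq_add, Finset.sum_add_distrib, ← Finset.mul_sum] at h ⊢
  rw [h, E0, E]
  ring

lemma hardy_eq (x y z : ℂ) :
    hardyNorm ((C (q0 + x) + C (q1 + y) * X 0 + C (q1 + z) * X 1) * F - 1) =
      √(E0 + E x y z) := by
  rw [hardyNorm, residual_eq, hardy_poly, error_eq]

lemma E_nonneg (x y z : ℂ) : 0 ≤ E x y z :=
  Finset.sum_nonneg fun _ _ => Finset.sum_nonneg fun _ _ => by positivity

lemma E0_nonneg : 0 ≤ E0 :=
  Finset.sum_nonneg fun _ _ => Finset.sum_nonneg fun _ _ => by positivity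

lemma E_eq_zero {x y z : ℂ} (h : E x y z = 0) : x = 0 ∧ y = 0 ∧ z = 0 := by
  have h1 : ∀ i < 8, ∀ j < 8,
      x * (U0 i j : ℂ) + y * (U1 i j : ℂ) + z * (U2 i j : ℂ) = 0 := by
    intro i hi j hj
    have h2 := (Finset.sum_eq_zero_iff_of_nonneg
      (fun _ _ => Finset.sum_nonneg fun _ _ => by positivity)).1 h i (mem_range.2 hi)
    have h3 := (Finset.sum_eq_zero_iff_of_nonneg (fun _ _ => by positivity)).1 h2 j
      (mem_range.2 hj)
    simpa using h3
  have a0 := h1 0 (by norm_num) 0 (by norm_num)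
  have a1 := h1 1 (by norm_num) 0 (by norm_num)
  have a2 := h1 0 (by norm_num) 1 (by norm_num)
  simp [U0, U1, U2, T] at a0
  simp [U0, U1, U2, T, a0] at a1
  simp [U0, U1, U2, T, a0, a1] at a2
  exact ⟨a0, a1, a2⟩

/-- the optimal approximant -/
noncomputable def Q : MvPolynomial (Fin 2) ℂ := C q0 + C q1 * X 0 + C q1 * X 1

lemma Q_optimal : IsOptimalApproximant F 2 Q := by
  refine ⟨mem_P_two.2 ⟨_, _, _, rfl⟩, ?_⟩
  intro p hp
  obtain ⟨a, b, c, rfl⟩ := mem_P_two.1 hp
  have h1 := hardy_eq 0 0 0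
  have h2 := hardy_eq (a - q0) (b - q1) (c - q1)
  simp only [add_zero, add_sub_cancel] at h1 h2
  rw [Q, h1, h2]
  apply Real.sqrt_le_sqrt
  have h3 := E_nonneg (a - q0) (b - q1) (c - q1)
  have h4 : E 0 0 0 = 0 := by simp [E]
  linarith

lemma Q_unique {q : MvPolynomial (Fin 2) ℂ} (hq : IsOptimalApproximant F 2 q) : q = Q := by
  obtain ⟨a, b, c, rfl⟩ := mem_P_two.1 hq.1
  have h0 := hq.2 Q Q_optimal.1
  have h1 := hardy_eq 0 0 0
  have h2 := hardy_eq (a - q0) (b - q1) (c - q1)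
  simp only [add_zero, add_sub_cancel] at h1 h2
  rw [Q, h1, h2] at h0
  have h4 : E 0 0 0 = 0 := by simp [E]
  have h5 := E_nonneg (a - q0) (b - q1) (c - q1)
  have h6 := E0_nonneg
  rw [Real.sqrt_le_sqrt_iff (by linarith), h4] at h0
  obtain ⟨ha, hb, hc⟩ := E_eq_zero (x := a - q0) (y := b - q1) (z := c - q1) (by linarith)
  rw [Q, sub_eq_zero.1 ha, sub_eq_zero.1 hb, sub_eq_zero.1 hc]

/-- `f` has no zeros on the closed bidisk -/
lemma F_ne_zero (z : Fin 2 → ℂ) (hz : ∀ i, ‖z i‖ ≤ 1) : eval z F ≠ 0 := by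
  have key : ∀ u v : ℂ, ‖u‖ ≤ 1 → ‖v‖ ≤ 1 → 5 - u + 3 * v ≠ 0 := by
    intro u v hu hv h
    have h1 : (5 : ℂ) = u - 3 * v := by linear_combination h
    have h2 : ‖(5 : ℂ)‖ ≤ ‖u‖ + ‖3 * v‖ := by
      rw [h1]
      exact norm_sub_le _ _
    rw [norm_mul] at h2
    simp at h2
    linarith
  have e : eval z F = (5 - z 0 + 3 * z 1) ^ 3 * (5 - z 1 + 3 * z 0) ^ 3 := by
    simp only [F, map_mul, map_pow, map_add, map_sub, eval_C, eval_X]
    ring
  rw [e]
  exact mul_ne_zero (pow_ne_zero _ (key _ _ (hz 0) (hz 1)))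
    (pow_ne_zero _ (key _ _ (hz 1) (hz 0)))

/-- **The weak Shanks conjecture on the bidisk is false.** There is a polynomial `f` in two
variables without zeros on the closed bidisk such that, for `n = 2`, the `n`-th optimal polynomial
approximant of `1/f` in `H²(𝔻²)` (which is unique) has a zero in the open bidisk. -/
theorem result :
    ∃ f : MvPolynomial (Fin 2) ℂ, (∀ z : Fin 2 → ℂ, (∀ i, ‖z i‖ ≤ 1) → eval z f ≠ 0) ∧
      ∃ n : ℕ, ∃ q : MvPolynomial (Fin 2) ℂ, IsOptimalApproximant f n q ∧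
        (∀ q', IsOptimalApproximant f n q' → q' = q) ∧
        ∃ z : Fin 2 → ℂ, (∀ i, ‖z i‖ < 1) ∧ eval z q = 0 := by
  refine ⟨F, F_ne_zero, 2, Q, Q_optimal, fun q' h => Q_unique h,
    fun _ => 632882141 / 641479440, ?_, ?_⟩
  · intro i
    rw [norm_div]
    norm_num
  · simp only [Q, map_add, map_mul, eval_C, eval_X, q0, q1]
    norm_num

end Pool.Agent.Results.MP_52e642_an.WeakShanksFails
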